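import Pool.Agent.R304.GR.Sum
import Pool.Agent.Results.MP_6bc78b_nt.SimpleZerosOfZ

/-!
# More than a third of the Gram intervals contain a simple zero of Hardy's function

Unconditionally, for all large `T`, at least `0.3362 ϑ(T) / π` of the Gram intervals
`{t : (n - 1) π < ϑ(t) ≤ n π}` contain a simple zero of `Z` in `(0, T]`; the number of all the Gram
intervals up to `T` is `ϑ(T) / π + O(1)`.  The same proportion holds in all intervals `(T, T + H]`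
with `T ^ (1 - δ) ≤ H ≤ T`, and, instead of the Gram intervals, for every division of `(T, T + H]`
into sets of diameter at most `(1 + κ) 2 π / log T`.
-/

open Filter Topology Complex

namespace Pool.Agent.Results.MP_6bc78b_nt.GramIntervals

/-- the phase `exp (i ϑ(t))`, with `ϑ(t) = arg Γ(1/4 + i t / 2) - (t / 2) log π` -/
noncomputable def phase (t : ℝ) : ℂ :=
  Gamma (1 / 4 + I * t / 2) / ‖Gamma (1 / 4 + I * t / 2)‖ * cexp (-(I * (t / 2) * Real.log Real.pi))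

/-- the function `ϑ(t)`, the integral of its derivative
`(1/2) Re (Γ'/Γ)(1/4 + i t / 2) - (1/2) log π` from `0` to `t`; the theorem contains the proof that
it is the continuous function with `ϑ(0) = 0` and `exp (i ϑ(t)) = phase t` -/
noncomputable def theta (t : ℝ) : ℝ := ∫ u in (0 : ℝ)..t,
  ((deriv Gamma (1 / 4 + I * u / 2) / Gamma (1 / 4 + I * u / 2)).re / 2 - Real.log Real.pi / 2)

/-- Hardy's function `Z(t) = exp (i ϑ(t)) ζ(1/2 + i t)` -/
noncomputable def Z (t : ℝ) : ℂ := phase t * riemannZeta (1 / 2 + I * t)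

/-- the simple real zeros of `Z` in `(T₁, T₂]` -/
def simpleZeros (T₁ T₂ : ℝ) : Set ℝ := {t : ℝ | T₁ < t ∧ t ≤ T₂ ∧ Z t = 0 ∧ deriv Z t ≠ 0}

/-- the nontrivial zeros of zeta with ordinate in `(T₁, T₂]` -/
def zeros (T₁ T₂ : ℝ) : Set ℂ :=
  {s : ℂ | riemannZeta s = 0 ∧ 0 < s.re ∧ s.re < 1 ∧ T₁ < s.im ∧ s.im ≤ T₂}

/-- the number of nontrivial zeros with ordinate in `(T₁, T₂]`, counted with multiplicity -/
noncomputable def N (T₁ T₂ : ℝ) : ℕ := ∑ᶠ s ∈ zeros T₁ T₂, analyticOrderNatAt riemannZeta s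

/-- the indices `n` of the Gram intervals `{t : (n - 1) π < ϑ(t) ≤ n π}` that contain a simple zero
of `Z` in `(T₁, T₂]` -/
def gramIndices (T₁ T₂ : ℝ) : Set ℤ :=
  {n : ℤ | ∃ t ∈ simpleZeros T₁ T₂, (n - 1 : ℝ) * Real.pi < theta t ∧ theta t ≤ n * Real.pi}

lemma Z_eq : Z = SimpleZerosOfZ.Z := rfl

lemma theta_eq : theta = R304.GR.vt := rfl

theorem zeros_eq (T₁ T₂ : ℝ) : zeros T₁ T₂ = H370.zset riemannZeta T₁ T₂ := by
  ext s
  simp only [zeros, H370.zset, Set.mem_ofPred_eq]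
  tauto

/-- the sets of zeros that are counted are finite -/
theorem zeros_finite (T₁ T₂ : ℝ) (h : 0 ≤ T₁) : (zeros T₁ T₂).Finite := by
  rw [zeros_eq]
  exact (H370.zeta_zeros_finite T₂).subset (H370.zset_mono _ h le_rfl)

theorem N_eq (T₁ T₂ : ℝ) : N T₁ T₂ = H370.NN riemannZeta T₁ T₂ := by
  unfold N H370.NN
  rw [zeros_eq]
  rfl

theorem simpleZeros_finite (T₁ T₂ : ℝ) (h : 0 ≤ T₁) : (simpleZeros T₁ T₂).Finite := by
  refine (SimpleZerosOfZ.simpleZeros_finite T₂).subset ?_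
  rintro t ⟨h1, h2, h3, h4⟩
  exact ⟨by linarith, h2, h3, h4⟩

theorem gramIndices_eq (T₁ T₂ : ℝ) : gramIndices T₁ T₂ = R304.GR.gi '' simpleZeros T₁ T₂ := by
  ext n
  constructor
  · rintro ⟨t, ht, h1, h2⟩
    exact ⟨t, ht, (R304.GR.gi_iff t n).2 ⟨h1, h2⟩⟩
  · rintro ⟨t, ht, h⟩
    exact ⟨t, ht, (R304.GR.gi_iff t n).1 h⟩

/-- the sets of indices that are counted are finite -/
theorem gramIndices_finite (T₁ T₂ : ℝ) (h : 0 ≤ T₁) : (gramIndices T₁ T₂).Finite := by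
  rw [gramIndices_eq]
  exact (simpleZeros_finite T₁ T₂ h).image _

lemma mem_simple {T₁ T₂ x : ℝ} (h1 : T₁ < x) (h2 : x ≤ T₂)
    (h3 : (1 / 2 + I * x : ℂ) ∈ H370.zset riemannZeta T₁ T₂)
    (h4 : H370.mult riemannZeta (1 / 2 + I * x) = 1) : x ∈ simpleZeros T₁ T₂ := by
  have hz : riemannZeta (1 / 2 + I * x) = 0 := h3.2.2.2.2
  exact ⟨h1, h2, (SimpleZerosOfZ.Z_zero_iff x).2 hz, SimpleZerosOfZ.simple_of_order hz h4⟩

theorem result :
    (theta 0 = 0 ∧ Continuous theta ∧ (∀ t : ℝ, cexp (I * (theta t : ℂ)) = phase t) ∧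
      ∃ T₁ : ℝ, StrictMonoOn theta (Set.Ici T₁)) ∧
    (∃ T₀ : ℝ, ∀ T : ℝ, T₀ ≤ T →
      0.3362 * (theta T / Real.pi) ≤ ((gramIndices 0 T).ncard : ℝ)) ∧
    (∃ δ : ℝ, 0 < δ ∧ ∃ T₀ : ℝ, ∀ T : ℝ, T₀ ≤ T → ∀ H : ℝ, T ^ (1 - δ) ≤ H → H ≤ T →
      0.3362 * (N T (T + H) : ℝ) ≤ ((gramIndices T (T + H)).ncard : ℝ)) ∧
    (∃ δ κ : ℝ, 0 < δ ∧ 0 < κ ∧ ∃ T₀ : ℝ, ∀ T : ℝ, T₀ ≤ T → ∀ H : ℝ, T ^ (1 - δ) ≤ H → H ≤ T →
      ∀ lab : ℝ → ℤ, (∀ x y : ℝ, T < x → x ≤ y → y ≤ T + H → lab x = lab y →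
          y - x ≤ (1 + κ) * (2 * Real.pi / Real.log T)) →
        0.3362 * (N T (T + H) : ℝ) ≤ ((lab '' simpleZeros T (T + H)).ncard : ℝ)) := by
  classical
  have hA : ∀ T : ℝ, 0 ≤ T → ∀ H : ℝ, ∀ S : Finset ℝ,
      (∀ x ∈ S, T < x ∧ x ≤ T + H ∧ (1 / 2 + I * x : ℂ) ∈ H370.zset riemannZeta T (T + H) ∧
        H370.mult riemannZeta (1 / 2 + I * x) = 1) → ∀ lab : ℝ → ℤ,
      (S.image lab).card ≤ (lab '' simpleZeros T (T + H)).ncard := by
    intro T hT H S hS lab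
    rw [← Set.ncard_coe_finset, Finset.coe_image]
    refine Set.ncard_le_ncard (Set.image_mono ?_) ((simpleZeros_finite T (T + H) hT).image lab)
    intro x hx
    obtain ⟨h1, h2, h3, h4⟩ := hS x hx
    exact mem_simple h1 h2 h3 h4
  refine ⟨⟨R304.GR.vt_zero, R304.GR.vt_cont, R304.GR.exp_vt, R304.GR.vt_mono⟩, ?_, ?_, ?_⟩
  · obtain ⟨b, X0, hX0, h⟩ := R304.GR.gram_long H370.good_zeta (c := 0.67249) (by norm_num)
      (by norm_num) (fun X => simpleZeros 0 X) (fun X => simpleZeros_finite 0 X le_rfl)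
      (fun X Y hXY t ht => ⟨ht.1, ht.2.1.trans hXY, ht.2.2⟩) (fun X t ht => ⟨ht.1, ht.2.1⟩)
      (fun T hT x h1 h2 h3 h4 => by
        have := mem_simple h1 h2 h3 h4
        exact ⟨by linarith, this.2⟩)
    obtain ⟨X1, h1⟩ := R304.GR.gram_total (c := 0.67249) (c' := 0.6724) (b := b) (by norm_num)
      (by norm_num)
    refine ⟨max X0 X1, fun T hT => ?_⟩
    have h2 := h T ((le_max_left _ _).trans hT)
    have h3 := h1 T ((le_max_right _ _).trans hT)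
    rw [gramIndices_eq, theta_eq]
    norm_num at h2 h3 ⊢
    linarith
  · obtain ⟨d, hd0, hd1, T0, hT0, h⟩ := R304.GR.gram_short H370.good_zeta (c := 0.6724)
      (by norm_num) (by norm_num)
    refine ⟨d, hd0, T0, fun T hT H hH hHT => ?_⟩
    obtain ⟨S, hS, hc⟩ := h T hT H hH hHT
    have h1 := hA T (by linarith) H S hS R304.GR.gi
    have h2 : (((S.image R304.GR.gi).card : ℕ) : ℝ) ≤
        ((R304.GR.gi '' simpleZeros T (T + H)).ncard : ℝ) := by exact_mod_cast h1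
    rw [gramIndices_eq, N_eq]
    norm_num at hc ⊢
    linarith
  · obtain ⟨d, κ, hd0, hd1, hκ, T0, hT0, h⟩ := R304.GR.blocks_short H370.good_zeta (c := 0.6724)
      (by norm_num) (by norm_num)
    refine ⟨d, κ, hd0, hκ, T0, fun T hT H hH hHT lab hlab => ?_⟩
    obtain ⟨S, hS, hc⟩ := h T hT H hH hHT
    have h0 := hc lab hlab
    have h1 := hA T (by linarith) H S hS lab
    have h2 : (((S.image lab).card : ℕ) : ℝ) ≤
        ((lab '' simpleZeros T (T + H)).ncard : ℝ) := by exact_mod_cast h1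
    rw [N_eq]
    norm_num at h0 ⊢
    linarith

end Pool.Agent.Results.MP_6bc78b_nt.GramIntervals
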