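import Pool.Agent.R304.SG.Bal

/-!
# The simple zeros of Hardy's function at which `Z` increases, and those at which it decreases

Unconditionally, for all large `T`, there are at least `(0.6726 N(T) + E(T) - 1) / 2` zeros of `Z`
in `(0, T]` with `Z'(t) > 0`, and at least as many with `Z'(t) < 0`; here `E(T)` is the sum of
`max (m - 2) 0` over the distinct zeros of zeta on the critical line and of `m - 1` over the
distinct zeros off the line, `m` the multiplicity.  The same holds with `2 - c(h) - ε` for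
`0.6726` in every interval `(T, T + H]` with `T ^ h ≤ H ≤ T`, `c(h) = h/2 + cot(h/√2)/√2`.
-/

open Filter Topology Complex

namespace Pool.Agent.Results.MP_6bc78b_nt.SignsOfDerivative

/-- the phase `exp (i ϑ(t))`, with `ϑ(t) = arg Γ(1/4 + i t / 2) - (t / 2) log π` -/
noncomputable def phase (t : ℝ) : ℂ :=
  Gamma (1 / 4 + I * t / 2) / ‖Gamma (1 / 4 + I * t / 2)‖ * cexp (-(I * (t / 2) * Real.log Real.pi))

/-- Hardy's function `Z(t) = exp (i ϑ(t)) ζ(1/2 + i t)`, a real number; the theorem contains the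
proof that the product is real -/
noncomputable def Z (t : ℝ) : ℝ := (phase t * riemannZeta (1 / 2 + I * t)).re

/-- the zeros of `Z` in `(T₁, T₂]` with positive derivative -/
def increasing (T₁ T₂ : ℝ) : Set ℝ := {t : ℝ | T₁ < t ∧ t ≤ T₂ ∧ Z t = 0 ∧ 0 < deriv Z t}

/-- the zeros of `Z` in `(T₁, T₂]` with negative derivative -/
def decreasing (T₁ T₂ : ℝ) : Set ℝ := {t : ℝ | T₁ < t ∧ t ≤ T₂ ∧ Z t = 0 ∧ deriv Z t < 0}

/-- the multiplicity of `s` as a zero of zeta -/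
noncomputable def mult (s : ℂ) : ℕ := analyticOrderNatAt riemannZeta s

/-- the nontrivial zeros of zeta with ordinate in `(T₁, T₂]` -/
def zeros (T₁ T₂ : ℝ) : Set ℂ :=
  {s : ℂ | riemannZeta s = 0 ∧ 0 < s.re ∧ s.re < 1 ∧ T₁ < s.im ∧ s.im ≤ T₂}

/-- the number of nontrivial zeros with ordinate in `(T₁, T₂]`, counted with multiplicity -/
noncomputable def N (T₁ T₂ : ℝ) : ℕ := ∑ᶠ s ∈ zeros T₁ T₂, mult s

/-- the excess multiplicity: a zero of multiplicity `m` counts `max (m - 2) 0` if it is on the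
critical line and `m - 1` if it is off the line (subtraction of natural numbers) -/
noncomputable def excess (T₁ T₂ : ℝ) : ℕ :=
  ∑ᶠ s ∈ zeros T₁ T₂, (if s.re = 1 / 2 then mult s - 2 else mult s - 1)

/-- the constant `c(h) = h/2 + cot(h/√2)/√2`; `c(1) = 1.3274...` -/
noncomputable def c (h : ℝ) : ℝ := h / 2 + Real.cot (h / Real.sqrt 2) / Real.sqrt 2

lemma Z_eq (t : ℝ) : Z t = (R304.SG.Z t).re := rfl

lemma N_eq (T₁ T₂ : ℝ) : N T₁ T₂ = SimplePlusExcess.N T₁ T₂ := rfl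

lemma excess_eq (T₁ T₂ : ℝ) : excess T₁ T₂ = SimplePlusExcess.excess T₁ T₂ := rfl

lemma c_eq (h : ℝ) : c h = SimplePlusExcess.c h := rfl

lemma Z_zero (t : ℝ) : Z t = 0 ↔ R304.SG.Z t = 0 := by
  constructor
  · intro h
    have h1 := R304.SG.Z_re t
    rw [← Z_eq, h] at h1
    simpa using h1.symm
  · intro h
    rw [Z_eq, h]; simp

lemma deriv_Z {t : ℝ} (h : Z t = 0) : deriv Z t = (deriv R304.SG.Z t).re := by
  have h0 := (Z_zero t).1 h
  have hd := SimpleZerosOfZ.Z_hasDerivAt t ((R304.SG.Z_zero_iff t).mp h0)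
  have hd' : HasDerivAt R304.SG.Z (SimpleZerosOfZ.phase t *
      (deriv riemannZeta (1 / 2 + I * t) * I)) t := hd
  rw [hd'.deriv]
  have h1 := Complex.reCLM.hasFDerivAt.comp_hasDerivAt t hd'
  exact h1.deriv

theorem increasing_eq (T₁ T₂ : ℝ) : increasing T₁ T₂ =
    {t : ℝ | T₁ < t ∧ t ≤ T₂ ∧ R304.SG.Z t = 0 ∧ 0 < (deriv R304.SG.Z t).re} := by
  ext t
  constructor
  · rintro ⟨h1, h2, h3, h4⟩
    exact ⟨h1, h2, (Z_zero t).1 h3, by rwa [deriv_Z h3] at h4⟩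
  · rintro ⟨h1, h2, h3, h4⟩
    have h5 := (Z_zero t).2 h3
    exact ⟨h1, h2, h5, by rwa [deriv_Z h5]⟩

theorem decreasing_eq (T₁ T₂ : ℝ) : decreasing T₁ T₂ =
    {t : ℝ | T₁ < t ∧ t ≤ T₂ ∧ R304.SG.Z t = 0 ∧ (deriv R304.SG.Z t).re < 0} := by
  ext t
  constructor
  · rintro ⟨h1, h2, h3, h4⟩
    exact ⟨h1, h2, (Z_zero t).1 h3, by rwa [deriv_Z h3] at h4⟩
  · rintro ⟨h1, h2, h3, h4⟩
    have h5 := (Z_zero t).2 h3
    exact ⟨h1, h2, h5, by rwa [deriv_Z h5]⟩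

/-- the sets that are counted are finite -/
theorem sets_finite (T₁ T₂ : ℝ) (h : 0 ≤ T₁) :
    (increasing T₁ T₂).Finite ∧ (decreasing T₁ T₂).Finite := by
  constructor
  · refine (R304.SG.RZ_finite T₁ T₂ h).subset ?_
    rintro t ⟨h1, h2, h3, -⟩
    exact ⟨h1, h2, (Z_zero t).1 h3⟩
  · refine (R304.SG.RZ_finite T₁ T₂ h).subset ?_
    rintro t ⟨h1, h2, h3, -⟩
    exact ⟨h1, h2, (Z_zero t).1 h3⟩

lemma bound {T₁ T₂ k : ℝ} (h0 : 0 ≤ T₁) (h12 : T₁ < T₂)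
    (h : k * (N T₁ T₂ : ℝ) + 2 * (excess T₁ T₂ : ℝ) ≤
      ((SimplePlusExcess.simpleZeros T₁ T₂).ncard : ℝ)) :
    k * (N T₁ T₂ : ℝ) + (excess T₁ T₂ : ℝ) - 1 ≤ 2 * ((increasing T₁ T₂).ncard : ℝ) ∧
    k * (N T₁ T₂ : ℝ) + (excess T₁ T₂ : ℝ) - 1 ≤ 2 * ((decreasing T₁ T₂).ncard : ℝ) := by
  obtain ⟨h1, h2⟩ := R304.SG.balance h0 h12
  rw [← increasing_eq] at h1
  rw [← decreasing_eq] at h2
  rw [← excess_eq] at h1 h2
  have h1' : ((SimplePlusExcess.simpleZeros T₁ T₂).ncard : ℝ) ≤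
      2 * ((increasing T₁ T₂).ncard : ℝ) + 1 + (excess T₁ T₂ : ℝ) := by exact_mod_cast h1
  have h2' : ((SimplePlusExcess.simpleZeros T₁ T₂).ncard : ℝ) ≤
      2 * ((decreasing T₁ T₂).ncard : ℝ) + 1 + (excess T₁ T₂ : ℝ) := by exact_mod_cast h2
  constructor <;> linarith

theorem result :
    (∀ t : ℝ, ((Z t : ℝ) : ℂ) = phase t * riemannZeta (1 / 2 + I * t)) ∧
    (∃ T₀ : ℝ, ∀ T : ℝ, T₀ ≤ T →
      0.6726 * (N 0 T : ℝ) + (excess 0 T : ℝ) - 1 ≤ 2 * ((increasing 0 T).ncard : ℝ) ∧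
      0.6726 * (N 0 T : ℝ) + (excess 0 T : ℝ) - 1 ≤ 2 * ((decreasing 0 T).ncard : ℝ)) ∧
    (∀ h ε : ℝ, 0 < h → h ≤ 1 → 0 < ε →
      ∃ T₀ : ℝ, ∀ T : ℝ, T₀ ≤ T → ∀ H : ℝ, T ^ h ≤ H → H ≤ T →
        (2 - c h - ε) * (N T (T + H) : ℝ) + (excess T (T + H) : ℝ) - 1 ≤
          2 * ((increasing T (T + H)).ncard : ℝ) ∧
        (2 - c h - ε) * (N T (T + H) : ℝ) + (excess T (T + H) : ℝ) - 1 ≤
          2 * ((decreasing T (T + H)).ncard : ℝ)) ∧
    ∀ h : ℝ, 0 < h → h ≤ 1 → c h ≤ 1 / h + h / 3 := by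
  obtain ⟨⟨T₁, r1⟩, r2, r3⟩ := SimplePlusExcess.result
  refine ⟨fun t => R304.SG.Z_re t, ⟨max 1 T₁, fun T hT => ?_⟩, fun h ε h0 h1 hε => ?_, r3⟩
  · have hT1 : 1 ≤ T := (le_max_left _ _).trans hT
    exact bound le_rfl (by linarith) (r1 T ((le_max_right _ _).trans hT)).1
  · obtain ⟨T₀, r⟩ := r2 h ε h0 h1 hε
    refine ⟨max 1 T₀, fun T hT H hH1 hH2 => ?_⟩
    have hT1 : 1 ≤ T := (le_max_left _ _).trans hT
    have hH : 0 < H := lt_of_lt_of_le (Real.rpow_pos_of_pos (by linarith) h) hH1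
    exact bound (by linarith) (by linarith) (r T ((le_max_right _ _).trans hT) H hH1 hH2)

end Pool.Agent.Results.MP_6bc78b_nt.SignsOfDerivative
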