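import Pool.Agent.R304.UE.Main
import Pool.Agent.Results.MP_6bc78b_nt.SignsOfDerivative
import Pool.Agent.Results.MP_6bc78b_nt.UniversalitySimpleZeros

/-!
# Universality of zeta along the zeros at which Hardy's function increases, and decreases

Unconditionally: for every compact `K` in the strip `1/2 < Re z < 1`, every function `f`, all
`0 ≤ ε' < ε` and all large `T`, the number of the zeros `t` of Hardy's function `Z` in `(T, 2T]`
with `Z'(t) > 0` and `sup_K |ζ(z + it) - f(z)| < ε` is at least `((2 - c) d - o(1)) / 2` times the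
number `N(T, 2T)` of all zeros of zeta, and so is the number of those with `Z'(t) < 0`; here `d` is
the upper density of the set of all real `t` with `sup_K |ζ(z + it) - f(z)| < ε'`, and
`c = 1/2 + cot(1/√2)/√2`, `2 - c ≥ 0.6725`.  In particular zeta is universal in the sense of
Voronin along the simple zeros of `Z` at which `Z` increases, and along those at which it decreases,
in every interval `(T, 2T]` with a positive proportion of all zeros.
-/

open Filter Topology Complex MeasureTheory Set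

namespace Pool.Agent.Results.MP_6bc78b_nt.UniversalityAndSigns

/-- the phase `exp (i ϑ(t))`, with `ϑ(t) = arg Γ(1/4 + i t / 2) - (t / 2) log π` -/
noncomputable def phase (t : ℝ) : ℂ :=
  Gamma (1 / 4 + I * t / 2) / ‖Gamma (1 / 4 + I * t / 2)‖ * cexp (-(I * (t / 2) * Real.log Real.pi))

/-- Hardy's function `Z(t) = exp (i ϑ(t)) ζ(1/2 + i t)`, a real number; the theorem contains the
proof that the product is real -/
noncomputable def Z (t : ℝ) : ℝ := (phase t * riemannZeta (1 / 2 + I * t)).re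

/-- the zeros of `Z` in `(T₁, T₂]` with positive derivative -/
def increasing (T₁ T₂ : ℝ) : Set ℝ := {t : ℝ | T₁ < t ∧ t ≤ T₂ ∧ Z t = 0 ∧ 0 < deriv Z t}

/-- the zeros of `Z` in `(T₁, T₂]` with negative derivative -/
def decreasing (T₁ T₂ : ℝ) : Set ℝ := {t : ℝ | T₁ < t ∧ t ≤ T₂ ∧ Z t = 0 ∧ deriv Z t < 0}

/-- the nontrivial zeros of zeta with ordinate in `(T₁, T₂]` -/
def zeros (T₁ T₂ : ℝ) : Set ℂ :=
  {s : ℂ | riemannZeta s = 0 ∧ 0 < s.re ∧ s.re < 1 ∧ T₁ < s.im ∧ s.im ≤ T₂}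

/-- the number of nontrivial zeros with ordinate in `(T₁, T₂]`, counted with multiplicity -/
noncomputable def N (T₁ T₂ : ℝ) : ℕ := ∑ᶠ s ∈ zeros T₁ T₂, analyticOrderNatAt riemannZeta s

/-- the constant `c = 1/2 + cot(1/√2)/√2 = 1.3274...` -/
noncomputable def c : ℝ := 1 / 2 + Real.cot (1 / Real.sqrt 2) / Real.sqrt 2

/-- `S_ε(K, f)`: the real `t` with `sup_{z ∈ K} |ζ(z + it) - f(z)| < ε`. -/
def S (ε : ℝ) (K : Set ℂ) (f : ℂ → ℂ) : Set ℝ :=
  {t : ℝ | ∃ δ < ε, ∀ z ∈ K, ‖riemannZeta (z + t * I) - f z‖ ≤ δ}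

/-- the upper density `limsup_{X → ∞} X⁻¹ m(E ∩ [0, X])` -/
noncomputable def upperDensity (E : Set ℝ) : ENNReal :=
  limsup (fun X : ℝ => volume (E ∩ Icc 0 X) / ENNReal.ofReal X) atTop

/-- `(K, f)` is admissible: `K` is a compact subset of the strip `1/2 < Re z < 1` with connected
complement, `f` is continuous on `K` and holomorphic without zeros in the interior of `K`
(zeros on the boundary are allowed). -/
structure Admissible (K : Set ℂ) (f : ℂ → ℂ) : Prop where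
  compact : IsCompact K
  strip : ∀ z ∈ K, 1 / 2 < z.re ∧ z.re < 1
  compl_connected : IsConnected Kᶜ
  cont : ContinuousOn f K
  hol : DifferentiableOn ℂ f (interior K)
  nonzero : ∀ z ∈ interior K, f z ≠ 0

lemma increasing_eq (T₁ T₂ : ℝ) : increasing T₁ T₂ =
    {t : ℝ | T₁ < t ∧ t ≤ T₂ ∧ R304.SG.Z t = 0 ∧ R304.UE.sgn true t} :=
  SignsOfDerivative.increasing_eq T₁ T₂

lemma decreasing_eq (T₁ T₂ : ℝ) : decreasing T₁ T₂ =
    {t : ℝ | T₁ < t ∧ t ≤ T₂ ∧ R304.SG.Z t = 0 ∧ R304.UE.sgn false t} :=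
  SignsOfDerivative.decreasing_eq T₁ T₂

/-- the sets that are counted are finite -/
theorem sets_finite (T₁ T₂ : ℝ) (h : 0 ≤ T₁) :
    (increasing T₁ T₂).Finite ∧ (decreasing T₁ T₂).Finite ∧ (zeros T₁ T₂).Finite :=
  ⟨(SignsOfDerivative.sets_finite T₁ T₂ h).1, (SignsOfDerivative.sets_finite T₁ T₂ h).2,
    UniversalitySimpleZeros.zeros_finite T₁ T₂ h⟩

lemma N_eq (T₁ T₂ : ℝ) : N T₁ T₂ = H370.NN riemannZeta T₁ T₂ := UniversalitySimpleZeros.N_eq T₁ T₂

lemma c_eq : c = H295SI.cc 1 := UniversalitySimpleZeros.c_eq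

lemma main (K : Set ℂ) (f : ℂ → ℂ) (hK : IsCompact K)
    (hKs : ∀ z ∈ K, 1 / 2 < z.re ∧ z.re < 1) (ε' ε η : ℝ) (h0 : 0 ≤ ε') (hlt : ε' < ε)
    (hη : 0 < η) : ∃ T₀ : ℝ, ∀ T : ℝ, T₀ ≤ T →
      ((2 - c) * (upperDensity (S ε' K f)).toReal - η) * (N T (2 * T) : ℝ) ≤
        2 * ({t : ℝ | t ∈ increasing T (2 * T) ∧ t ∈ S ε K f}.ncard : ℝ) ∧
      ((2 - c) * (upperDensity (S ε' K f)).toReal - η) * (N T (2 * T) : ℝ) ≤
        2 * ({t : ℝ | t ∈ decreasing T (2 * T) ∧ t ∈ S ε K f}.ncard : ℝ) := by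
  obtain ⟨T1, hT1, h1⟩ := R304.UE.signed hK hKs f h0 hlt hη true
  obtain ⟨T2, hT2, h2⟩ := R304.UE.signed hK hKs f h0 hlt hη false
  refine ⟨max T1 T2, fun T hT => ?_⟩
  have a1 := h1 T ((le_max_left _ _).trans hT)
  have a2 := h2 T ((le_max_right _ _).trans hT)
  rw [← c_eq, ← N_eq] at a1 a2
  rw [increasing_eq, decreasing_eq]
  exact ⟨a1, a2⟩

theorem result :
    (∀ t : ℝ, ((Z t : ℝ) : ℂ) = phase t * riemannZeta (1 / 2 + I * t)) ∧
    (∀ (K : Set ℂ) (f : ℂ → ℂ), IsCompact K → (∀ z ∈ K, 1 / 2 < z.re ∧ z.re < 1) →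
      ∀ ε' ε η : ℝ, 0 ≤ ε' → ε' < ε → 0 < η → ∃ T₀ : ℝ, ∀ T : ℝ, T₀ ≤ T →
        ((2 - c) * (upperDensity (S ε' K f)).toReal - η) * (N T (2 * T) : ℝ) ≤
          2 * ({t : ℝ | t ∈ increasing T (2 * T) ∧ t ∈ S ε K f}.ncard : ℝ) ∧
        ((2 - c) * (upperDensity (S ε' K f)).toReal - η) * (N T (2 * T) : ℝ) ≤
          2 * ({t : ℝ | t ∈ decreasing T (2 * T) ∧ t ∈ S ε K f}.ncard : ℝ)) ∧
    (∀ (K : Set ℂ) (f : ℂ → ℂ), Admissible K f → ∀ ε : ℝ, 0 < ε → ∃ κ : ℝ, 0 < κ ∧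
      ∃ T₀ : ℝ, ∀ T : ℝ, T₀ ≤ T →
        κ * (N T (2 * T) : ℝ) ≤
          ({t : ℝ | t ∈ increasing T (2 * T) ∧ t ∈ S ε K f}.ncard : ℝ) ∧
        κ * (N T (2 * T) : ℝ) ≤
          ({t : ℝ | t ∈ decreasing T (2 * T) ∧ t ∈ S ε K f}.ncard : ℝ)) ∧
    0.6725 ≤ 2 - c := by
  have hcc1 := TH803UC.cc_gt
  have hcc2 := TH803UC.cc_lt
  rw [← c_eq] at hcc1 hcc2
  refine ⟨fun t => R304.SG.Z_re t, main, fun K f hKf ε hε => ?_, by norm_num at hcc2 ⊢; linarith⟩
  have hpos := (MP_950908_nt.AdmissibleUniversality.result K f ⟨hKf.compact, hKf.strip,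
    hKf.compl_connected, hKf.cont, hKf.hol, hKf.nonzero⟩ (ε / 2) (half_pos hε)).2.2
  have hpos' : 0 < upperDensity (S (ε / 2) K f) := hpos
  have htop : upperDensity (S (ε / 2) K f) ≠ ⊤ :=
    ne_top_of_le_ne_top ENNReal.one_ne_top (UniversalitySimpleZeros.upperDensity_le _)
  have hu : 0 < (upperDensity (S (ε / 2) K f)).toReal := ENNReal.toReal_pos hpos'.ne' htop
  norm_num at hcc2
  have hκ : 0 < (2 - c) * (upperDensity (S (ε / 2) K f)).toReal / 2 := by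
    have : 0 < 2 - c := by linarith
    positivity
  obtain ⟨T₀, h⟩ := main K f hKf.compact hKf.strip (ε / 2) ε _ (by linarith) (by linarith) hκ
  refine ⟨(2 - c) * (upperDensity (S (ε / 2) K f)).toReal / 4, by linarith, T₀, fun T hT => ?_⟩
  obtain ⟨a1, a2⟩ := h T hT
  constructor <;> linarith

end Pool.Agent.Results.MP_6bc78b_nt.UniversalityAndSigns
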